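import Pool.Graph.R_pool_sql_team_668148b0.Helper174.LusinNovikov

/-!
# MP_4ec5c8_lc: Borel-bounded Fréchet-amenable relations are amenable

Let `E` be a countable Borel equivalence relation which is Borel-bounded in the sense of Boykin and
Jackson. If `E` is `α`-amenable for some countable ordinal `α ≥ 1`, then `E` is amenable. So a
relation which is `β`-amenable but not `α`-amenable (`1 ≤ α < β`) cannot be Borel-bounded.

The proof is by induction on `α`: for each `i` the sequence with the index set `{⟨i, j⟩ : j}` is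
replaced by a sequence which converges in the ordinary sense wherever the former converges (up to
any given error `1 / (k + 1)`), and the index in the `i`-th sequence is chosen by a Borel function
that dominates the moduli of convergence and is invariant up to finite errors.
-/

set_option autoImplicit false

open MeasureTheory Filter Topology Set
open scoped NNReal ENNReal

namespace Pool.Agent.Results.MP_4ec5c8_lc.BorelBounded

/-- The filter `Fr ⊗ (G i)_i`: the sets `A` such that `{j | ⟨i, j⟩ ∈ A}` is in `G i` for all but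
finitely many `i`. -/
def tensor (G : ℕ → Filter ℕ) : Filter ℕ where
  sets := {A | ∀ᶠ i in cofinite, ∀ᶠ j in G i, Nat.pair i j ∈ A}
  univ_sets := by
    show ∀ᶠ i in cofinite, ∀ᶠ j in G i, Nat.pair i j ∈ (univ : Set ℕ)
    exact Eventually.of_forall fun i => Eventually.of_forall fun j => mem_univ _
  sets_of_superset := by
    intro A B hA hAB
    have hA' : ∀ᶠ i in cofinite, ∀ᶠ j in G i, Nat.pair i j ∈ A := hA
    show ∀ᶠ i in cofinite, ∀ᶠ j in G i, Nat.pair i j ∈ B
    exact hA'.mono fun i hi => hi.mono fun j hj => hAB hj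
  inter_sets := by
    intro A B hA hB
    have hA' : ∀ᶠ i in cofinite, ∀ᶠ j in G i, Nat.pair i j ∈ A := hA
    have hB' : ∀ᶠ i in cofinite, ∀ᶠ j in G i, Nat.pair i j ∈ B := hB
    show ∀ᶠ i in cofinite, ∀ᶠ j in G i, Nat.pair i j ∈ A ∩ B
    filter_upwards [hA', hB'] with i h1 h2
    filter_upwards [h1, h2] with j h3 h4
    exact ⟨h3, h4⟩

/-- `FrAt α F`: the filter `F` is a filter `Fr_α` of the transfinite hierarchy (for some choice of the
cofinal sequences at limit ordinals). -/
inductive FrAt : Ordinal.{0} → Filter ℕ → Prop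
  | one : FrAt 1 cofinite
  | succ (α : Ordinal.{0}) (F : Filter ℕ) (h : FrAt α F) : FrAt (α + 1) (tensor fun _ => F)
  | limit (a : ℕ → Ordinal.{0}) (F : ℕ → Filter ℕ) (ha : StrictMono a)
      (h : ∀ k, FrAt (a k) (F k)) : FrAt (⨆ k, a k) (tensor F)

/-- `E` is a countable Borel equivalence relation. -/
structure CBER {X : Type*} [MeasurableSpace X] (E : X → X → Prop) : Prop where
  equiv : Equivalence E
  borel : MeasurableSet {p : X × X | E p.1 p.2}
  countable : ∀ x, {y | E x y}.Countable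

/-- A Borel family of probability densities `g x` on the classes `[x]` (a Borel function on `E` with
values in `[0, ∞)`, extended by zero, with `‖g x‖₁ = 1`). -/
structure Density {X : Type*} [MeasurableSpace X] (E : X → X → Prop) (g : X → X → ℝ≥0) : Prop where
  borel : Measurable fun p : X × X => g p.1 p.2
  off : ∀ x y, ¬ E x y → g x y = 0
  one : ∀ x, ∑' y, (g x y : ℝ≥0∞) = 1

/-- The distance `‖g x - g y‖₁`. -/
noncomputable def dist1 {X : Type*} (g : X → X → ℝ≥0) (x y : X) : ℝ≥0∞ :=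
  ∑' z, edist (g x z) (g y z)

/-- `E` is `F`-amenable. -/
def Amenable {X : Type*} [MeasurableSpace X] (F : Filter ℕ) (E : X → X → Prop) : Prop :=
  ∃ f : ℕ → X → X → ℝ≥0, (∀ n, Density E (f n)) ∧
    ∀ x y, E x y → Tendsto (fun n => dist1 (f n) x y) F (𝓝 0)

/-- `E` is Borel-bounded: every Borel function `X → ℕ → ℕ` is eventually dominated by a Borel
function whose values at equivalent points are eventually equal. -/
def IsBorelBounded {X : Type*} [MeasurableSpace X] (E : X → X → Prop) : Prop :=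
  ∀ φ : X → ℕ → ℕ, Measurable φ → ∃ ψ : X → ℕ → ℕ, Measurable ψ ∧
    (∀ x, ∀ᶠ i in cofinite, φ x i ≤ ψ x i) ∧ ∀ x y, E x y → ∀ᶠ i in cofinite, ψ x i = ψ y i

section

variable {X : Type*} [MeasurableSpace X] [StandardBorelSpace X] {E : X → X → Prop}

/-- the distance of the densities at `x` and `δ x` is a Borel function of `x` -/
theorem dist1_borel (hE : CBER E) (γ : ℕ → X → X) (hγ : ∀ n, Measurable (γ n))
    (hγE : ∀ x y, E x y ↔ ∃ n, γ n x = y) (g : X → X → ℝ≥0) (hg : Density E g) (n : ℕ) :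
    Measurable fun x => dist1 g x (γ n x) := by
  classical
  have h1 : ∀ x, dist1 g x (γ n x) =
      ∑' l, ({x | ∀ l' < l, γ l' x ≠ γ l x} : Set X).indicator
        (fun x => edist (g x (γ l x)) (g (γ n x) (γ l x))) x := by
    intro x
    have hinj : Function.Injective (fun l : {l : ℕ | ∀ l' < l, γ l' x ≠ γ l x} => γ l.1 x) := by
      rintro ⟨l, hl⟩ ⟨m, hm⟩ hlm
      simp only at hlm
      rcases lt_trichotomy l m with h | h | h
      · exact absurd hlm (hm l h)
      · exact Subtype.ext h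
      · exact absurd hlm.symm (hl m h)
    have hsup : Function.support (fun z => edist (g x z) (g (γ n x) z)) ⊆
        range (fun l : {l : ℕ | ∀ l' < l, γ l' x ≠ γ l x} => γ l.1 x) := by
      intro z hz
      have hxz : E x z := by
        by_contra hcon
        apply hz
        have hyz : ¬ E (γ n x) z := by
          intro h
          exact hcon (hE.equiv.trans ((hγE x _).2 ⟨n, rfl⟩) h)
        simp only [hg.off _ _ hcon, hg.off _ _ hyz, edist_self]
      have hex := (hγE x z).1 hxz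
      refine ⟨⟨Nat.find hex, ?_⟩, Nat.find_spec hex⟩
      intro l' hl' h
      exact Nat.find_min hex hl' (h.trans (Nat.find_spec hex))
    unfold dist1
    rw [← hinj.tsum_eq hsup]
    rw [tsum_subtype {l : ℕ | ∀ l' < l, γ l' x ≠ γ l x}
      (fun l => edist (g x (γ l x)) (g (γ n x) (γ l x)))]
    apply tsum_congr
    intro l
    by_cases h : ∀ l' < l, γ l' x ≠ γ l x
    · rw [indicator_of_mem (show l ∈ {l : ℕ | ∀ l' < l, γ l' x ≠ γ l x} from h),
        indicator_of_mem (show x ∈ {x | ∀ l' < l, γ l' x ≠ γ l x} from h)]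
    · rw [indicator_of_notMem (show l ∉ {l : ℕ | ∀ l' < l, γ l' x ≠ γ l x} from h),
        indicator_of_notMem (show x ∉ {x | ∀ l' < l, γ l' x ≠ γ l x} from h)]
  simp only [h1]
  refine Measurable.tsum fun l => ?_
  refine Measurable.indicator ?_ ?_
  · have h2 : Measurable fun x => g x (γ l x) :=
      hg.borel.comp (measurable_id.prodMk (hγ l))
    have h3 : Measurable fun x => g (γ n x) (γ l x) :=
      hg.borel.comp ((hγ n).prodMk (hγ l))
    exact h2.edist h3
  · have h4 : {x | ∀ l' < l, γ l' x ≠ γ l x} = ⋂ l' : ℕ, ⋂ _ : l' < l, {x | γ l' x = γ l x}ᶜ := by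
      ext x
      simp
    rw [h4]
    refine MeasurableSet.iInter fun l' => MeasurableSet.iInter fun _ => MeasurableSet.compl ?_
    exact measurableSet_eq_fun (hγ l') (hγ l)

/-- The induction statement. -/
def Imp (E : X → X → Prop) (F : Filter ℕ) : Prop :=
  ∀ f : ℕ → X → X → ℝ≥0, (∀ n, Density E (f n)) → ∃ g : ℕ → X → X → ℝ≥0, (∀ n, Density E (g n)) ∧
    ∀ x y, E x y → ∀ k : ℕ, (∀ᶠ n in F, dist1 (f n) x y < ((k : ℝ≥0∞) + 1)⁻¹) →
      ∀ᶠ m in cofinite, dist1 (g m) x y < ((k : ℝ≥0∞) + 1)⁻¹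

/-- The step. -/
theorem step (hE : CBER E) (hB : IsBorelBounded E) (G : ℕ → Filter ℕ) (hG : ∀ i, Imp E (G i)) :
    Imp E (tensor G) := by
  classical
  intro f hf
  obtain ⟨γ, hγ, hγE⟩ := Pool.Agent.Helper174.LusinNovikov.cber_enum E hE.equiv hE.borel
    hE.countable
  choose g hg hgG using fun i => hG i (fun j => f (Nat.pair i j)) (fun j => hf _)
  -- the moduli
  obtain ⟨P, hP⟩ : ∃ P : ℕ → X → ℕ → Prop, P = fun i x J => ∀ n ≤ i, ∀ k ≤ i,
      (∃ J', ∀ m, J' ≤ m → dist1 (g i m) x (γ n x) < ((k : ℝ≥0∞) + 1)⁻¹) →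
      ∀ m, J ≤ m → dist1 (g i m) x (γ n x) < ((k : ℝ≥0∞) + 1)⁻¹ := ⟨_, rfl⟩
  have hPex : ∀ i x, ∃ J, P i x J := by
    intro i x
    have h1 : ∀ n k, ∃ J, (∃ J', ∀ m, J' ≤ m → dist1 (g i m) x (γ n x) < ((k : ℝ≥0∞) + 1)⁻¹) →
        ∀ m, J ≤ m → dist1 (g i m) x (γ n x) < ((k : ℝ≥0∞) + 1)⁻¹ := by
      intro n k
      by_cases h : ∃ J', ∀ m, J' ≤ m → dist1 (g i m) x (γ n x) < ((k : ℝ≥0∞) + 1)⁻¹
      · obtain ⟨J', hJ'⟩ := h
        exact ⟨J', fun _ => hJ'⟩
      · exact ⟨0, fun h' => absurd h' h⟩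
    choose J hJ using h1
    refine ⟨(Finset.range (i + 1) ×ˢ Finset.range (i + 1)).sup (fun p => J p.1 p.2), ?_⟩
    rw [hP]
    intro n hn k hk hex m hm
    apply hJ n k hex
    refine le_trans ?_ hm
    exact Finset.le_sup (f := fun p : ℕ × ℕ => J p.1 p.2) (b := (n, k))
      (Finset.mem_product.2 ⟨Finset.mem_range.2 (by omega), Finset.mem_range.2 (by omega)⟩)
  have hPm : ∀ i J, MeasurableSet {x | P i x J} := by
    intro i J
    have hA : ∀ n m k, MeasurableSet {x | dist1 (g i m) x (γ n x) < ((k : ℝ≥0∞) + 1)⁻¹} := by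
      intro n m k
      exact measurableSet_lt (dist1_borel hE γ hγ hγE (g i m) (hg i m) n) measurable_const
    have h1 : {x | P i x J} = ⋂ n : ℕ, ⋂ _ : n ≤ i, ⋂ k : ℕ, ⋂ _ : k ≤ i,
        ((⋃ J' : ℕ, ⋂ m : ℕ, ⋂ _ : J' ≤ m, {x | dist1 (g i m) x (γ n x) < ((k : ℝ≥0∞) + 1)⁻¹})ᶜ ∪
          ⋂ m : ℕ, ⋂ _ : J ≤ m, {x | dist1 (g i m) x (γ n x) < ((k : ℝ≥0∞) + 1)⁻¹}) := by
      ext x
      rw [hP]
      simp only [mem_ofPred_eq, mem_iInter, mem_union, mem_compl_iff, mem_iUnion, imp_iff_not_or]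
    rw [h1]
    refine MeasurableSet.iInter fun n => MeasurableSet.iInter fun _ => MeasurableSet.iInter fun k =>
      MeasurableSet.iInter fun _ => MeasurableSet.union (MeasurableSet.compl ?_) ?_
    · exact MeasurableSet.iUnion fun J' => MeasurableSet.iInter fun m =>
        MeasurableSet.iInter fun _ => hA n m k
    · exact MeasurableSet.iInter fun m => MeasurableSet.iInter fun _ => hA n m k
  obtain ⟨φ, hφ⟩ : ∃ φ : X → ℕ → ℕ, φ = fun x i => Nat.find (hPex i x) := ⟨_, rfl⟩
  have hφm : Measurable φ := by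
    rw [hφ]
    refine measurable_pi_lambda _ fun i => ?_
    exact measurable_find (hPex i) (hPm i)
  have hφP : ∀ x i, P i x (φ x i) := by
    intro x i
    rw [hφ]
    exact Nat.find_spec (hPex i x)
  obtain ⟨ψ, hψm, hψ1, hψ2⟩ := hB φ hφm
  refine ⟨fun i x y => g i (ψ x i) x y, fun i => ⟨?_, ?_, ?_⟩, ?_⟩
  · -- Borel
    have h1 : Measurable fun q : ℕ × (X × X) => g i q.1 q.2.1 q.2.2 :=
      measurable_from_prod_countable_right fun m => (hg i m).borel
    have h2 : Measurable fun p : X × X => (ψ p.1 i, p) :=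
      (((measurable_pi_apply i).comp hψm).comp measurable_fst).prodMk measurable_id
    exact h1.comp h2
  · intro x y hxy
    exact (hg i _).off x y hxy
  · intro x
    exact (hg i _).one x
  · intro x y hxy k hk
    obtain ⟨n, hn⟩ := (hγE x y).1 hxy
    have h1 : ∀ᶠ i in cofinite, ∀ᶠ m in cofinite, dist1 (g i m) x y < ((k : ℝ≥0∞) + 1)⁻¹ := by
      have h2 : ∀ᶠ i in cofinite, ∀ᶠ j in G i,
        dist1 (f (Nat.pair i j)) x y < ((k : ℝ≥0∞) + 1)⁻¹ := hk
      exact h2.mono fun i hi => hgG i x y hxy k hi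
    rw [Nat.cofinite_eq_atTop] at h1 hψ1 hψ2 ⊢
    filter_upwards [h1, hψ1 x, hψ2 x y hxy, eventually_ge_atTop (max n k)] with i g1 g2 g3 g4
    have g5 : dist1 (fun x y => g i (ψ x i) x y) x y = dist1 (g i (ψ x i)) x y := by
      unfold dist1
      simp only [← g3]
    rw [g5, ← hn]
    have g6 := hφP x i
    rw [hP] at g6
    refine g6 n (le_trans (le_max_left _ _) g4) k (le_trans (le_max_right _ _) g4) ?_ _ g2
    rw [eventually_atTop] at g1
    rw [hn]
    exact g1

theorem imp_all (hE : CBER E) (hB : IsBorelBounded E) (α : Ordinal.{0}) (F : Filter ℕ)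
    (h : FrAt α F) : Imp E F := by
  induction h with
  | one => exact fun f hf => ⟨f, hf, fun x y _ k hk => hk⟩
  | succ α F _ ih => exact step hE hB (fun _ => F) (fun _ => ih)
  | limit a F _ _ ih => exact step hE hB F ih

end

/-- **Theorem.** Let `E` be a Borel-bounded countable Borel equivalence relation on a standard Borel
space. If `E` is `α`-amenable for some ordinal `α` (Fréchet-amenable), then `E` is amenable. -/
theorem result {X : Type*} [MeasurableSpace X] [StandardBorelSpace X] (E : X → X → Prop)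
    (hE : CBER E) (hB : IsBorelBounded E) (α : Ordinal.{0}) (F : Filter ℕ) (hF : FrAt α F)
    (hA : Amenable F E) : Amenable cofinite E := by
  obtain ⟨f, hf, hfE⟩ := hA
  obtain ⟨g, hg, hgE⟩ := imp_all hE hB α F hF f hf
  refine ⟨g, hg, fun x y hxy => ?_⟩
  rw [ENNReal.tendsto_nhds_zero]
  intro ε hε
  obtain ⟨k, hk⟩ := ENNReal.exists_inv_nat_lt hε.ne'
  have h1 : ((k : ℝ≥0∞) + 1)⁻¹ ≤ (k : ℝ≥0∞)⁻¹ := ENNReal.inv_le_inv.2 le_self_add
  have h2 : ∀ᶠ n in F, dist1 (f n) x y < ((k : ℝ≥0∞) + 1)⁻¹ := by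
    refine (tendsto_order.1 (hfE x y hxy)).2 _ ?_
    rw [gt_iff_lt, ENNReal.inv_pos]
    exact ENNReal.add_ne_top.2 ⟨ENNReal.natCast_ne_top k, ENNReal.one_ne_top⟩
  exact (hgE x y hxy k h2).mono fun m hm => (hm.le.trans h1).trans hk.le

end Pool.Agent.Results.MP_4ec5c8_lc.BorelBounded
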